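import Pool.Agent.Run7.h696.CF.Iface
import Pool.Agent.Run7.h225.HG.SYS1
import Pool.Agent.Run7.h225.HG.SYS2

/-!
# Project CF (helper696), piece RES: rescaled systems
-/

set_option autoImplicit false

open PowerSeries Matrix
open Pool.Agent.Y113 hiding Bm
open Pool.Agent.Y120.GF Pool.Agent.Y120.GH Pool.Agent.Y119.HZ
open Pool.Agent.Y119.HY (cm E Hf Yf Rel Gal)
open Pool.Agent.Run7.h225.HG Pool.Agent.Run7.h696.CF

namespace Pool.Agent.Run7.h882.CF

/-- the derivative of a rescaled series -/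
lemma rescale_X_deriv (c : ℚ) (f : ℚ⟦X⟧) :
    PowerSeries.rescale c (X * d⁄dX ℚ f) = X * d⁄dX ℚ (PowerSeries.rescale c f) := by
  ext m
  rw [coeff_rescale]
  rcases m with _ | m
  · rw [coeff_zero_X_mul, coeff_zero_X_mul, mul_zero]
  · rw [coeff_succ_X_mul, coeff_succ_X_mul, coeff_derivative, coeff_derivative, coeff_rescale]
    ring

lemma SDc_rescale {c : ℚ} (hc0 : 0 < c) (hc1 : c ≤ 1) {f : ℚ⟦X⟧} (h : SDc f) : SDc (PowerSeries.rescale c f) := by
  obtain ⟨n, hn1, hn2⟩ := h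
  have hc0' : (0 : ℝ) < (c : ℝ) := by exact_mod_cast hc0
  have hc1' : (c : ℝ) ≤ 1 := by exact_mod_cast hc1
  refine Pool.Agent.Y119.HY.sdc_of ⟨2 ^ n, fun m => ?_⟩ ⟨2 ^ n * c.den, fun m => ?_⟩
  · rw [coeff_rescale]
    push_cast
    rw [abs_mul, abs_of_pos (pow_pos hc0' m)]
    exact (mul_le_of_le_one_left (abs_nonneg _) (pow_le_one₀ hc0'.le hc1')).trans (hn1 m)
  · obtain ⟨d, hd0, hd, hd'⟩ := hn2 m
    have hden : (1 : ℝ) ≤ c.den := by exact_mod_cast c.den_pos
    refine ⟨d * c.den ^ m, Nat.mul_pos hd0 (pow_pos c.den_pos m), ?_, fun j hj => ?_⟩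
    · push_cast
      rw [mul_pow]
      exact mul_le_mul hd (pow_le_pow_right₀ hden (by omega)) (by positivity) (by positivity)
    · obtain ⟨a, ha⟩ := hd' j hj
      refine ⟨a * c.num ^ j * (c.den : ℤ) ^ (m - j), ?_⟩
      rw [coeff_rescale]
      have e1 : (c.den : ℚ) ^ m = (c.den : ℚ) ^ j * (c.den : ℚ) ^ (m - j) := by
        rw [← pow_add]; congr 1; omega
      have e2 : (c.den : ℚ) ^ j * c ^ j = (c.num : ℚ) ^ j := by
        rw [← mul_pow, mul_comm, Rat.mul_den_eq_num]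
      push_cast
      rw [e1, ← ha, ← e2]
      ring

lemma Cv_rescale {c : ℚ} (hc0 : 0 < c) (hc1 : c ≤ 1) {t : ℝ} (ht : 1 < t) {f : ℚ⟦X⟧} (h : Cv t f) :
    Cv t (PowerSeries.rescale c f) := by
  have hc0' : (0 : ℝ) < (c : ℝ) := by exact_mod_cast hc0
  have hc1' : (c : ℝ) ≤ 1 := by exact_mod_cast hc1
  refine Summable.of_nonneg_of_le (fun m => by positivity) (fun m => ?_) h
  rw [coeff_rescale]
  push_cast
  rw [abs_mul, abs_of_pos (pow_pos hc0' m)]
  exact mul_le_mul_of_nonneg_right (mul_le_of_le_one_left (abs_nonneg _) (pow_le_one₀ hc0'.le hc1'))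
    (by positivity)

/-- the rescaled denominator -/
noncomputable def Tc (c : ℚ) (D : ℕ) : Polynomial ℤ :=
  Polynomial.C (D : ℤ) * (Polynomial.C (c.den : ℤ) - Polynomial.C c.num * Polynomial.X)

/-- the rescaled matrix -/
noncomputable def Ac {n : ℕ} (c : ℚ) (D : ℕ) (N' b : Fin n → Fin n → ℤ) (i j : Fin n) : Polynomial ℤ :=
  Polynomial.C ((D : ℤ) * N' i j) * (Polynomial.C (c.den : ℤ) - Polynomial.C c.num * Polynomial.X) +
    Polynomial.C (b i j) * (Polynomial.C c.num * Polynomial.X)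

lemma rescale_X' (c : ℚ) : PowerSeries.rescale c (X : ℚ⟦X⟧) = C c * X := by
  rw [PowerSeries.rescale_X]

lemma rescale_C' (c a : ℚ) : PowerSeries.rescale c (C a : ℚ⟦X⟧) = C a := by
  ext m
  rw [coeff_rescale, coeff_C]
  split_ifs with h
  · rw [h, pow_zero, one_mul]
  · rw [mul_zero]

lemma ps_C (a : ℤ) : ps (Polynomial.C a) = C (a : ℚ) := by
  unfold ps
  rw [Polynomial.map_C, Polynomial.coe_C]
  rfl

lemma psR_X : psR (Polynomial.X) = X := by
  rw [psR_apply]
  unfold ps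
  rw [Polynomial.map_X, Polynomial.coe_X]

lemma ps_Tc (c : ℚ) (D : ℕ) : ps (Tc c D) = C (c.den : ℚ) * PowerSeries.rescale c (ps (T1 D)) := by
  have e : (C (c.den : ℚ) : ℚ⟦X⟧) * C c = C (c.num : ℚ) := by
    rw [← map_mul, mul_comm, Rat.mul_den_eq_num]
  have h1 : ps (Tc c D) = C (D : ℚ) * (C (c.den : ℚ) - C (c.num : ℚ) * X) := by
    have k1 : psR (Tc c D) = psR (Polynomial.C (D : ℤ)) *
        (psR (Polynomial.C (c.den : ℤ)) - psR (Polynomial.C c.num) * psR Polynomial.X) := by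
      unfold Tc
      simp only [← map_mul, ← map_sub]
    have k2 : ∀ a : ℤ, psR (Polynomial.C a) = C (a : ℚ) := ps_C
    rw [← psR_apply, k1, psR_X, k2, k2, k2]
    push_cast
    rfl
  have k3 : PowerSeries.rescale c (C (D : ℚ) * (1 - X)) = C (D : ℚ) * (1 - C c * X) := by
    rw [map_mul (PowerSeries.rescale c), map_sub (PowerSeries.rescale c), map_one, rescale_X', rescale_C']
  rw [h1, ps_T1, k3, ← e]
  ring

lemma ps_Ac {n : ℕ} {N B : Matrix (Fin n) (Fin n) ℚ} (c : ℚ) {D : ℕ} {N' b : Fin n → Fin n → ℤ}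
    (hN : ∀ i j, N i j = N' i j) (hb : ∀ i j, (b i j : ℚ) = D * B i j) (i j : Fin n) :
    ps (Ac c D N' b i j) = C (c.den : ℚ) * PowerSeries.rescale c (ps (SYS1.A1g n D N' b i j)) := by
  have e : (C (c.den : ℚ) : ℚ⟦X⟧) * C c = C (c.num : ℚ) := by
    rw [← map_mul, mul_comm, Rat.mul_den_eq_num]
  have h1 : ps (Ac c D N' b i j) = C ((D : ℚ) * N i j) * (C (c.den : ℚ) - C (c.num : ℚ) * X) +
      C ((D : ℚ) * B i j) * (C (c.num : ℚ) * X) := by
    have k1 : psR (Ac c D N' b i j) = psR (Polynomial.C ((D : ℤ) * N' i j)) *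
        (psR (Polynomial.C (c.den : ℤ)) - psR (Polynomial.C c.num) * psR Polynomial.X) +
        psR (Polynomial.C (b i j)) * (psR (Polynomial.C c.num) * psR Polynomial.X) := by
      unfold Ac
      simp only [← map_mul, ← map_sub, ← map_add]
    have k2 : ∀ a : ℤ, psR (Polynomial.C a) = C (a : ℚ) := ps_C
    rw [← psR_apply, k1, psR_X, k2, k2, k2, k2, ← hb, hN]
    push_cast
    rfl
  have k3 : PowerSeries.rescale c (C (D : ℚ) * ((1 - X) * C (N i j) + X * C (B i j))) =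
      C (D : ℚ) * ((1 - C c * X) * C (N i j) + C c * X * C (B i j)) := by
    rw [map_mul (PowerSeries.rescale c), map_add (PowerSeries.rescale c), map_mul (PowerSeries.rescale c) (1 - X),
      map_mul (PowerSeries.rescale c) X, map_sub (PowerSeries.rescale c), map_one, rescale_X', rescale_C',
      rescale_C', rescale_C']
  have k4 : (C ((D : ℚ) * N i j) : ℚ⟦X⟧) = C (D : ℚ) * C (N i j) := map_mul _ _ _
  have k5 : (C ((D : ℚ) * B i j) : ℚ⟦X⟧) = C (D : ℚ) * C (B i j) := map_mul _ _ _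
  rw [h1, SYS1.ps_A1g hN hb, k3, ← e, k4, k5]
  ring

/-- **RES** -/
theorem p_RES : S_RES := by
  intro n N B H W h c hc0 hc1
  obtain ⟨N', hN'⟩ := h.int
  obtain ⟨D, b, hD, hb⟩ := SYS1.exists_bg B
  refine ⟨⟨N', fun i j => (hN' i j).symm⟩, h.nil, ?_, ?_, ?_, ?_, ?_, ?_⟩
  · intro i j
    unfold rs
    rw [Matrix.map_apply, coeff_rescale, pow_zero, one_mul]
    have h1 : coeff 0 (H i j) = (1 : Matrix (Fin n) (Fin n) ℚ) i j := by
      rw [← h.zero]
      rfl
    rw [h1, Matrix.one_apply]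
  · refine ⟨Tc c D, Ac c D N' b, ?_, ?_⟩
    · intro h0
      have h1 := congrArg (Polynomial.eval 0) h0
      unfold Tc at h1
      simp at h1
      omega
    · intro i j
      have h1 := congrArg (fun g => C (c.den : ℚ) * PowerSeries.rescale c g) (SYS1.ode_int_s h hN' hb i j)
      simp only [map_mul, map_add, map_sum] at h1
      rw [← map_mul, rescale_X_deriv, ← mul_assoc, ← ps_Tc, Finset.mul_sum] at h1
      simp only [← mul_assoc, ← ps_Ac c hN' hb] at h1
      simp only [rescale_C'] at h1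
      unfold rs
      simp only [Matrix.map_apply]
      exact h1
  · unfold rs
    rw [← Matrix.map_mul, h.inv, Matrix.map_one _ (map_zero _) (map_one _)]
  · intro i j
    exact SDc_rescale hc0 hc1 (h.sH i j)
  · intro i j
    exact SDc_rescale hc0 hc1 (h.sW i j)
  · intro t ht i j
    exact Cv_rescale hc0 hc1 ht (SYS2.Cv_H h ht i j)

end Pool.Agent.Run7.h882.CF
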